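import Pool.Agent.N641.VB.Stm

/-!
# Project VB, leaf ULT: ultraproducts of Boolean algebras with measures

By helper426.
-/

set_option autoImplicit false
set_option linter.unusedSectionVars false

namespace Pool.Agent.N426.VB

open Pool.Agent.N641.VB Filter

/-- equality almost everywhere -/
def st (A : ℕ → Type) (U : Ultrafilter ℕ) : Setoid (∀ j, A j) where
  r x y := ∀ᶠ j in (U : Filter ℕ), x j = y j
  iseqv := ⟨fun _ => Eventually.of_forall fun _ => rfl, fun h => h.mono fun _ h => h.symm,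
    fun h g => (h.and g).mono fun _ h => h.1.trans h.2⟩

/-- the ultraproduct -/
def UPr (A : ℕ → Type) (U : Ultrafilter ℕ) : Type := Quotient (st A U)

/-- the class of a sequence -/
def mk {A : ℕ → Type} (U : Ultrafilter ℕ) (x : ∀ j, A j) : UPr A U := Quotient.mk (st A U) x

theorem mk_surj {A : ℕ → Type} {U : Ultrafilter ℕ} (b : UPr A U) : ∃ x, mk U x = b :=
  Quotient.exists_rep b

theorem mk_eq {A : ℕ → Type} {U : Ultrafilter ℕ} {x y : ∀ j, A j}
    (h : ∀ᶠ j in (U : Filter ℕ), x j = y j) : mk U x = mk U y := Quotient.sound (s := st A U) h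

section

variable {A : ℕ → Type} [∀ j, BooleanAlgebra (A j)] {U : Ultrafilter ℕ}

/-- the order -/
def le' (a b : UPr A U) : Prop :=
  Quotient.liftOn₂ a b (fun x y => ∀ᶠ j in (U : Filter ℕ), x j ≤ y j) (by
    intro a₁ b₁ a₂ b₂ h1 h2
    apply propext
    constructor
    · intro h
      filter_upwards [h, h1, h2] with j e1 e2 e3
      rw [← e2, ← e3]
      exact e1
    · intro h
      filter_upwards [h, h1, h2] with j e1 e2 e3
      rw [e2, e3]
      exact e1)

/-- joins -/
def sup' : UPr A U → UPr A U → UPr A U :=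
  Quotient.map₂ (fun x y j => x j ⊔ y j) (by
    intro a₁ a₂ h1 b₁ b₂ h2
    filter_upwards [h1, h2] with j e1 e2
    rw [e1, e2])

/-- meets -/
def inf' : UPr A U → UPr A U → UPr A U :=
  Quotient.map₂ (fun x y j => x j ⊓ y j) (by
    intro a₁ a₂ h1 b₁ b₂ h2
    filter_upwards [h1, h2] with j e1 e2
    rw [e1, e2])

/-- complements -/
def compl' : UPr A U → UPr A U :=
  Quotient.map (fun x j => (x j)ᶜ) (by
    intro a₁ a₂ h1
    filter_upwards [h1] with j e1
    rw [e1])

theorem le_mk (x y : ∀ j, A j) : le' (mk U x) (mk U y) ↔ ∀ᶠ j in (U : Filter ℕ), x j ≤ y j :=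
  Iff.rfl

theorem sup_mk (x y : ∀ j, A j) : sup' (mk U x) (mk U y) = mk U fun j => x j ⊔ y j := rfl

theorem inf_mk (x y : ∀ j, A j) : inf' (mk U x) (mk U y) = mk U fun j => x j ⊓ y j := rfl

theorem compl_mk (x : ∀ j, A j) : compl' (mk U x) = mk U fun j => (x j)ᶜ := rfl

/-- the ultraproduct is a Boolean algebra -/
instance instB : BooleanAlgebra (UPr A U) where
  sup := sup'
  inf := inf'
  compl := compl'
  top := mk U fun _ => ⊤
  bot := mk U fun _ => ⊥
  le := le'
  le_refl := by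
    intro a
    obtain ⟨x, rfl⟩ := mk_surj a
    exact Eventually.of_forall fun _ => le_rfl
  le_trans := by
    intro a b c h1 h2
    obtain ⟨x, rfl⟩ := mk_surj a
    obtain ⟨y, rfl⟩ := mk_surj b
    obtain ⟨z, rfl⟩ := mk_surj c
    exact (h1.and h2).mono fun j h => h.1.trans h.2
  le_antisymm := by
    intro a b h1 h2
    obtain ⟨x, rfl⟩ := mk_surj a
    obtain ⟨y, rfl⟩ := mk_surj b
    exact mk_eq ((h1.and h2).mono fun j h => le_antisymm h.1 h.2)
  le_sup_left := by
    intro a b
    obtain ⟨x, rfl⟩ := mk_surj a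
    obtain ⟨y, rfl⟩ := mk_surj b
    exact Eventually.of_forall fun _ => le_sup_left
  le_sup_right := by
    intro a b
    obtain ⟨x, rfl⟩ := mk_surj a
    obtain ⟨y, rfl⟩ := mk_surj b
    exact Eventually.of_forall fun _ => le_sup_right
  sup_le := by
    intro a b c h1 h2
    obtain ⟨x, rfl⟩ := mk_surj a
    obtain ⟨y, rfl⟩ := mk_surj b
    obtain ⟨z, rfl⟩ := mk_surj c
    exact (h1.and h2).mono fun j h => sup_le h.1 h.2
  inf_le_left := by
    intro a b
    obtain ⟨x, rfl⟩ := mk_surj a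
    obtain ⟨y, rfl⟩ := mk_surj b
    exact Eventually.of_forall fun _ => inf_le_left
  inf_le_right := by
    intro a b
    obtain ⟨x, rfl⟩ := mk_surj a
    obtain ⟨y, rfl⟩ := mk_surj b
    exact Eventually.of_forall fun _ => inf_le_right
  le_inf := by
    intro a b c h1 h2
    obtain ⟨x, rfl⟩ := mk_surj a
    obtain ⟨y, rfl⟩ := mk_surj b
    obtain ⟨z, rfl⟩ := mk_surj c
    exact (h1.and h2).mono fun j h => le_inf h.1 h.2
  le_sup_inf := by
    intro a b c
    obtain ⟨x, rfl⟩ := mk_surj a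
    obtain ⟨y, rfl⟩ := mk_surj b
    obtain ⟨z, rfl⟩ := mk_surj c
    exact Eventually.of_forall fun _ => le_sup_inf
  inf_compl_le_bot := by
    intro a
    obtain ⟨x, rfl⟩ := mk_surj a
    refine Eventually.of_forall fun j => ?_
    show x j ⊓ (x j)ᶜ ≤ ⊥
    rw [inf_compl_eq_bot]
  top_le_sup_compl := by
    intro a
    obtain ⟨x, rfl⟩ := mk_surj a
    refine Eventually.of_forall fun j => ?_
    show ⊤ ≤ x j ⊔ (x j)ᶜ
    rw [sup_compl_eq_top]
  le_top := by
    intro a
    obtain ⟨x, rfl⟩ := mk_surj a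
    exact Eventually.of_forall fun _ => le_top
  bot_le := by
    intro a
    obtain ⟨x, rfl⟩ := mk_surj a
    exact Eventually.of_forall fun _ => bot_le

variable {M : Type} [Finite M] (mu : ∀ j, A j → M)

theorem exists_val (x : ∀ j, A j) : ∃ v, ∀ᶠ j in (U : Filter ℕ), mu j (x j) = v := by
  obtain ⟨a, ha⟩ := Ultrafilter.eq_pure_of_finite (U.map fun j => mu j (x j))
  refine ⟨a, ?_⟩
  have h : ∀ᶠ v in ((U.map fun j => mu j (x j) : Ultrafilter M) : Filter M), v = a := by
    rw [ha]
    exact rfl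
  exact h

theorem val_unique {x : ∀ j, A j} {v w : M} (h : ∀ᶠ j in (U : Filter ℕ), mu j (x j) = v)
    (g : ∀ᶠ j in (U : Filter ℕ), mu j (x j) = w) : v = w := by
  obtain ⟨j, h1, h2⟩ := (h.and g).exists
  rw [← h1, h2]

/-- the measure on the ultraproduct -/
noncomputable def nu (a : UPr A U) : M :=
  Quotient.liftOn a (fun x => Classical.choose (exists_val (U := U) mu x)) (by
    intro x y h
    refine val_unique (U := U) mu (x := y) ?_ (Classical.choose_spec (exists_val (U := U) mu y))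
    filter_upwards [h, Classical.choose_spec (exists_val (U := U) mu x)] with j e1 e2
    rw [← e1, e2])

theorem nu_mk (x : ∀ j, A j) {v : M} (h : ∀ᶠ j in (U : Filter ℕ), mu j (x j) = v) :
    nu mu (mk U x) = v :=
  val_unique (U := U) mu (x := x) (Classical.choose_spec (exists_val (U := U) mu x)) h

end

theorem ULT : S_ULT := by
  intro M _ _ A _ mu hmu U
  refine ⟨UPr A U, instB, nu mu, mk U, ⟨?_, ?_⟩, mk_surj, fun x y => Iff.rfl,
    fun x v h => nu_mk mu x h⟩
  · exact nu_mk mu (fun j => (⊥ : A j)) (Eventually.of_forall fun j => (hmu j).bot)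
  · intro a b hab
    obtain ⟨x, rfl⟩ := mk_surj a
    obtain ⟨y, rfl⟩ := mk_surj b
    obtain ⟨v, hv⟩ := exists_val (U := U) mu x
    obtain ⟨w, hw⟩ := exists_val (U := U) mu y
    rw [nu_mk mu x hv, nu_mk mu y hw]
    have h1 : ∀ᶠ j in (U : Filter ℕ), x j ⊓ y j ≤ ⊥ := disjoint_iff_inf_le.1 hab
    refine nu_mk mu (fun j => x j ⊔ y j) ?_
    filter_upwards [h1, hv, hw] with j e1 e2 e3
    rw [(hmu j).sup _ _ (disjoint_iff_inf_le.2 e1), e2, e3]

end Pool.Agent.N426.VB
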